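import Pool.Agent.helper78.T5.RootW
import Pool.Agent.helper4.BAS.Mass

/-!
# T5-MassW: the mass of the first passage words of each root in the window `[X, b X)`, with constants which do not depend on `X`
(both signs)
-/

namespace Pool.Agent.helper78.T5

open Finset Pool.Agent.helper14.EX1 Pool.Agent.helper24.T2 Pool.Agent.helper31.T2X Pool.Agent.helper4.BAS

theorem MassW_window {s : ℤ} (hs : s = 1 ∨ s = -1) {b e : ℝ} {i0 : ℕ} {S L d : ℝ} (hS0 : 0 ≤ S)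
    (hS : ∀ (s x : ℤ) (v : List ℕ), (s = 1 ∨ s = -1) → (∀ k ∈ v, 1 ≤ k) → Ala x v → Gd e i0 v →
      |(nv s (nd x v) : ℝ) - nv s x * (2 ^ v.sum / 3 ^ v.length)| ≤ S * (2 ^ v.sum / 3 ^ v.length))
    (hd : 0 < d) {Z : ℤ} (hZ0 : 0 < Z) (hZ : S * (1 + 1 / d) * Real.exp L ≤ Z) {x : ℤ}
    (hx : (Z : ℝ) * Real.exp (-L) ≤ nv s x) {X : ℝ} (hX : 0 < X)
    {v : List ℕ} (hv : ∀ k ∈ v, 1 ≤ k) (hA : Ala x v) (hG : Gd e i0 v)
    (hSt : Stw b (X * (1 + d) / nv s x) v.length v.sum) :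
    X ≤ (nv s (nd x v) : ℝ) ∧ (nv s (nd x v) : ℝ) < b * X * (1 + d) ^ 2 ∧
      ww v / (nv s x * (1 + d)) ≤ 1 / (nv s (nd x v) : ℝ) := by
  obtain ⟨hpos, hhalf, hdbl⟩ := Geo_half hS0 hd hZ hx hZ0
  obtain ⟨h2, h2'⟩ := abs_le.mp (hS s x v hs hv hA hG)
  have h3l : (0 : ℝ) < 3 ^ v.length := by positivity
  have hR : (0 : ℝ) < 2 ^ v.sum / 3 ^ v.length := by positivity
  have h3 : (nv s x : ℝ) / (1 + d) * (2 ^ v.sum / 3 ^ v.length) ≤ (nv s (nd x v) : ℝ) := by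
    have h4 := mul_le_mul_of_nonneg_right hhalf hR.le
    rw [sub_mul] at h4
    linarith
  have h3' : (nv s (nd x v) : ℝ) ≤ (nv s x : ℝ) * (1 + d) * (2 ^ v.sum / 3 ^ v.length) := by
    have h4 := mul_le_mul_of_nonneg_right hdbl hR.le
    rw [add_mul] at h4
    linarith
  obtain ⟨s1, s2⟩ := hSt
  have a1 : X * (1 + d) / (nv s x : ℝ) ≤ 2 ^ v.sum / 3 ^ v.length := by
    rw [le_div_iff₀ h3l]
    exact s1
  have a2 : (2 : ℝ) ^ v.sum / 3 ^ v.length < b * (X * (1 + d) / (nv s x : ℝ)) := by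
    rw [div_lt_iff₀ h3l]
    exact s2
  have b1 : X * (1 + d) ≤ (nv s x : ℝ) * (2 ^ v.sum / 3 ^ v.length) := by
    rw [div_le_iff₀ hpos] at a1
    linarith
  have b2 : (nv s x : ℝ) * (2 ^ v.sum / 3 ^ v.length) < b * X * (1 + d) := by
    have := mul_lt_mul_of_pos_left a2 hpos
    have e : (nv s x : ℝ) * (b * (X * (1 + d) / (nv s x : ℝ))) = b * X * (1 + d) := by
      field_simp
    rwa [e] at this
  have c1 : X ≤ (nv s (nd x v) : ℝ) := by
    refine le_trans ?_ h3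
    rw [div_mul_eq_mul_div, le_div_iff₀ (by linarith)]
    exact b1
  have c2 : 0 < (nv s (nd x v) : ℝ) := hX.trans_le c1
  refine ⟨c1, h3'.trans_lt ?_, ?_⟩
  · have h5 : (nv s x : ℝ) * (1 + d) * (2 ^ v.sum / 3 ^ v.length) =
        ((nv s x : ℝ) * (2 ^ v.sum / 3 ^ v.length)) * (1 + d) := by ring
    have h6 : b * X * (1 + d) ^ 2 = (b * X * (1 + d)) * (1 + d) := by ring
    rw [h5, h6]
    exact mul_lt_mul_of_pos_right b2 (by linarith)
  · have e : ww v / ((nv s x : ℝ) * (1 + d)) =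
        1 / ((nv s x : ℝ) * (1 + d) * (2 ^ v.sum / 3 ^ v.length)) := by
      unfold ww
      field_simp
    rw [e]
    exact div_le_div_of_nonneg_left zero_le_one c2 h3'

/-- The condition on a pair. -/
def MassW_Pc (s : ℤ) (b e : ℝ) (i0 h Z : ℕ) (L d X : ℝ) (p : ℤ × List ℕ) : Prop :=
  Mass_Rt s Z L p.1 ∧ Gd e i0 p.2 ∧ Ala p.1 p.2 ∧ Mass_Hc s Z d p.1 (p.2.take h) ∧
    Stw b (X * (1 + d) / nv s p.1) p.2.length p.2.sum

open Classical in
/-- The pairs. -/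
noncomputable def MassW_PP (s : ℤ) (b e : ℝ) (i0 h l K r Z : ℕ) (L d X : ℝ) : Finset (ℤ × List ℕ) :=
  ((Ico (-(Z : ℤ)) Z) ×ˢ ((range (r + 1)).biUnion (fun j => lw K (l + j)))).filter (MassW_Pc s b e i0 h Z L d X)

open Classical in
/-- The mass of one root. -/
theorem MassW_sum {s : ℤ} {b e : ℝ} {i0 h l K r Z : ℕ} {L d X : ℝ} {x : ℤ} (hx : x ∈ Ico (-(Z : ℤ)) Z)
    (hr : Mass_Rt s Z L x)
    (hw : ∀ (x : ℤ) (v : List ℕ), (∀ k ∈ v, 1 ≤ k) → MassW_Pc s b e i0 h Z L d X (x, v) →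
      ww v / (nv s x * (1 + d)) ≤ 1 / (nv s (nd x v) : ℝ)) :
    (1 / (nv s x : ℝ) * ∑ j ∈ range (r + 1), ∑ v ∈ lw K (l + j),
        (if Gd e i0 v ∧ Ala x v ∧ Mass_Hc s Z d x (v.take h) ∧ Stw b (X * (1 + d) / nv s x) (l + j) v.sum
          then ww v else 0)) / (1 + d) ≤
    ∑ p ∈ (MassW_PP s b e i0 h l K r Z L d X).filter (fun p => p.1 = x), 1 / (nv s (nd p.1 p.2) : ℝ) := by
  have e0 : (MassW_PP s b e i0 h l K r Z L d X).filter (fun p => p.1 = x) =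
      ({x} ×ˢ ((range (r + 1)).biUnion (fun j => lw K (l + j)))).filter (MassW_Pc s b e i0 h Z L d X) := by
    ext ⟨y, v⟩
    unfold MassW_PP
    simp only [mem_filter, mem_product, mem_singleton]
    constructor
    · rintro ⟨⟨⟨h1, h2⟩, h3⟩, h4⟩
      exact ⟨⟨h4, h2⟩, h3⟩
    · rintro ⟨⟨h4, h2⟩, h3⟩
      exact ⟨⟨⟨h4 ▸ hx, h2⟩, h3⟩, h4⟩
  rw [e0, Finset.sum_filter, Finset.sum_product, Finset.sum_singleton, Finset.sum_biUnion (Mass_disj K l r),
    Finset.mul_sum, Finset.sum_div]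
  refine Finset.sum_le_sum fun j _ => ?_
  rw [Finset.mul_sum, Finset.sum_div]
  refine Finset.sum_le_sum fun v hv => ?_
  obtain ⟨hlen, hlet⟩ := mem_lw.1 hv
  by_cases hc : Gd e i0 v ∧ Ala x v ∧ Mass_Hc s Z d x (v.take h) ∧ Stw b (X * (1 + d) / nv s x) (l + j) v.sum
  · rw [if_pos hc]
    have hpc : MassW_Pc s b e i0 h Z L d X (x, v) := by
      refine ⟨hr, hc.1, hc.2.1, hc.2.2.1, ?_⟩
      have := hc.2.2.2
      rw [← hlen] at this
      exact this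
    rw [if_pos hpc]
    refine le_trans (le_of_eq ?_) (hw x v (fun k hk => (hlet k hk).1) hpc)
    rw [one_div_mul_eq_div, div_div]
  · rw [if_neg hc, mul_zero, zero_div]
    have hpc : ¬ MassW_Pc s b e i0 h Z L d X (x, v) := by
      intro hpc
      apply hc
      refine ⟨hpc.2.1, hpc.2.2.1, hpc.2.2.2.1, ?_⟩
      have := hpc.2.2.2.2
      simp only [hlen] at this
      exact this
    rw [if_neg hpc]

theorem MassW_lw {K0 K l : ℕ} (h : K0 ≤ K) : lw K0 l ⊆ lw K l := by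
  intro v hv
  obtain ⟨h1, h2⟩ := mem_lw.1 hv
  exact mem_lw.2 ⟨h1, fun k hk => ⟨(h2 k hk).1, (h2 k hk).2.trans h⟩⟩

open Classical in
/-- `MassW_main` is `massW` with the names `b`, `d` of the ratio of the window and of the error. -/
theorem MassW_main {s : ℤ} (hs : s = 1 ∨ s = -1) {b d : ℝ} (hb : 1 < b) (hb2 : b ≤ 2) (hd : 0 < d) (Z1 : ℤ) :
    ∃ (Z : ℤ) (c : ℤ → ℝ) (X0 : ℕ), Z1 ≤ Z ∧ (∀ x, 0 ≤ c x) ∧ (∀ x, c x ≠ 0 → 0 < nv s x ∧ nv s x < Z) ∧
      (1 - d) / 4 ≤ ∑ x ∈ Ico (-Z) Z, c x ∧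
      ∀ X : ℕ, X0 ≤ X → ∃ P : Finset (ℤ × List ℕ),
        (∀ p ∈ P, FP s Z p.1 p.2 ∧ (X : ℝ) ≤ (nv s (nd p.1 p.2) : ℝ) ∧
          (nv s (nd p.1 p.2) : ℝ) < b * X * (1 + d)) ∧
        ∀ x ∈ Ico (-Z) Z, c x * Real.log b ≤
          ∑ p ∈ P.filter (fun p => p.1 = x), 1 / (nv s (nd p.1 p.2) : ℝ) := by
  -- the small constant
  set q : ℝ := min d 1 / 100 with hq
  have hq0 : 0 < q := by positivity
  have hq1 : q ≤ 1 / 100 := by
    rw [hq]
    have := min_le_right d 1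
    linarith
  have hqd : 22 * q ≤ d := by
    rw [hq]
    have := min_le_left d 1
    have : 0 < min d 1 := by positivity
    linarith
  have hqd' : (1 + q) ^ 2 ≤ 1 + d := by nlinarith
  have hlb : 0 < Real.log b := Real.log_pos hb
  obtain ⟨e, he, he1⟩ : ∃ e : ℝ, 0 < e ∧ e ≤ 1 / 100 := ⟨1 / 100, by norm_num, le_rfl⟩
  obtain ⟨L, i0, hL, hi0, hdr⟩ := drift2 (e := e) he hq0
  obtain ⟨S, hS0, hS⟩ := offs he he1 i0
  obtain ⟨h', hh'⟩ := pow_unbounded_of_one_lt (Real.exp L * (1 + q)) (by norm_num : (1 : ℝ) < 13 / 10)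
  set h : ℕ := max h' i0 with hh
  have hh0 : i0 ≤ h := le_max_right _ _
  have hh1 : 1 ≤ h := hi0.trans hh0
  have hhe : Real.exp L * (1 + q) ≤ (13 / 10 : ℝ) ^ h :=
    hh'.le.trans (pow_le_pow_right₀ (by norm_num) (le_max_left _ _))
  obtain ⟨n0, hn0⟩ := visitsW he he1 i0 (d := q * Real.exp (-L) * Real.log b) (by positivity)
  set l : ℕ := max n0 (2 * h) with hl
  have hl0 : n0 ≤ l := le_max_left _ _
  have hl2 : 2 * h ≤ l := le_max_right _ _
  have hhl : h ≤ l := by omega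
  have hVl : VisW b e i0 h l (q * Real.exp (-L) * Real.log b) := fun K r X x H hX =>
    hn0 h l hl0 (by omega) b K r X x H hb2 hX
  obtain ⟨Z0, hZ0⟩ := prog hs l hL hq0
  obtain ⟨Z2, hZ2⟩ := exists_nat_ge (S * (1 + 1 / q) * Real.exp L)
  set Z : ℕ := max (max Z0 Z2) (max Z1.toNat 1) with hZ
  have hZpos : 0 < Z := lt_of_lt_of_le one_pos ((le_max_right _ _).trans (le_max_right _ _))
  have hZc : Z1.toNat ≤ Z := (le_max_left _ _).trans (le_max_right _ _)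
  have hZa : Z0 ≤ Z := (le_max_left _ _).trans (le_max_left _ _)
  have hZb : Z2 ≤ Z := (le_max_right _ _).trans (le_max_left _ _)
  have hZS : S * (1 + 1 / q) * Real.exp L ≤ (Z : ℝ) := hZ2.trans (Nat.cast_le.2 hZb)
  obtain ⟨X0, hX0⟩ := rootW s (B := (Z : ℝ)) hb hb2 he he1 hq0 (hh0.trans hhl) hVl
  obtain ⟨X1, hX1⟩ := exists_nat_ge X0
  obtain ⟨K0, hK0⟩ := hdr h l hh1 hhl
  have h43 := Mass_log43
  have h43' : 0 < Real.log (4 / 3) := by linarith
  -- the constants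
  obtain ⟨m, hm⟩ : ∃ m : ℕ → ℤ → ℝ, ∀ K x, m K x = ∑ u ∈ lw K l,
      (if Gd e i0 u ∧ Ala x u ∧ Mass_Hc s Z q x (u.take h) then ww u else 0) := ⟨_, fun _ _ => rfl⟩
  obtain ⟨w, hw⟩ : ∃ w : ℤ → ℝ, ∀ x, w x = ((1 - q) / Real.log (4 / 3) * (1 / (nv s x : ℝ) * m K0 x) -
      q * Real.exp (-L) * (1 / (nv s x : ℝ))) / (1 + q) := ⟨_, fun _ => rfl⟩
  have hmono : ∀ K x, K0 ≤ K → m K0 x ≤ m K x := by
    intro K x hK
    rw [hm, hm]
    refine Finset.sum_le_sum_of_subset_of_nonneg (MassW_lw hK) fun u _ _ => ?_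
    have := ww_pos u
    split_ifs <;> positivity
  refine ⟨(Z : ℤ), fun x => if Mass_Rt s Z L x then max 0 (w x) else 0, max X1 1, ?_, fun x => ?_, fun x hx => ?_, ?_, ?_⟩
  · have := Int.self_le_toNat Z1
    have : (Z1.toNat : ℤ) ≤ (Z : ℤ) := by exact_mod_cast hZc
    linarith
  · dsimp only
    split_ifs
    · exact le_max_left _ _
    · exact le_rfl
  · have hrt : Mass_Rt s Z L x := by
      by_contra hcon
      exact hx (if_neg hcon)
    have h1 := Mass_pp hZpos hrt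
    exact ⟨by exact_mod_cast h1, by exact_mod_cast hrt.2.2⟩
  · -- the sum of the constants
    have hW := Mass_words (s := s) (e := e) (i0 := i0) (K := K0) (h := h) hL hq0 (hZ0 Z hZa) (hK0 K0 le_rfl)
    rw [← Finset.sum_filter]
    have h1 : ∑ x ∈ (Ico (-(Z : ℤ)) Z).filter (Mass_Rt s Z L), w x ≤
        ∑ x ∈ (Ico (-(Z : ℤ)) Z).filter (Mass_Rt s Z L), max 0 (w x) :=
      Finset.sum_le_sum fun x _ => le_max_right _ _
    refine le_trans ?_ h1
    have h2 : ∑ x ∈ (Ico (-(Z : ℤ)) Z).filter (Mass_Rt s Z L), w x =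
        ((1 - q) / Real.log (4 / 3) * (∑ x ∈ (Ico (-(Z : ℤ)) Z).filter (Mass_Rt s Z L), 1 / (nv s x : ℝ) * m K0 x) -
          q * Real.exp (-L) * ∑ x ∈ (Ico (-(Z : ℤ)) Z).filter (Mass_Rt s Z L), 1 / (nv s x : ℝ)) / (1 + q) := by
      simp only [hw]
      rw [← Finset.sum_div, Finset.sum_sub_distrib, ← Finset.mul_sum, ← Finset.mul_sum]
    have h3 : (Real.log (4 / 3) - 3 * q) / 4 ≤
        ∑ x ∈ (Ico (-(Z : ℤ)) Z).filter (Mass_Rt s Z L), 1 / (nv s x : ℝ) * m K0 x := by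
      simp only [hm]
      exact hW
    have h6 : q * Real.exp (-L) * ∑ x ∈ (Ico (-(Z : ℤ)) Z).filter (Mass_Rt s Z L), 1 / (nv s x : ℝ) ≤ 2 * q := by
      have h7 := mul_le_mul_of_nonneg_left (Mass_rts (s := s) hZpos L) (by positivity : 0 ≤ q * Real.exp (-L))
      have h8 : q * Real.exp (-L) * (2 * Real.exp L) = 2 * q := by
        rw [show q * Real.exp (-L) * (2 * Real.exp L) = 2 * q * (Real.exp (-L) * Real.exp L) by ring,
          ← Real.exp_add]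
        simp
      linarith
    have h4 : 0 ≤ (1 - q) / Real.log (4 / 3) := div_nonneg (by linarith) h43'.le
    have h5 := mul_le_mul_of_nonneg_left h3 h4
    have h9 : (1 - 21 * q) / 4 ≤ (1 - q) / Real.log (4 / 3) * ((Real.log (4 / 3) - 3 * q) / 4) - 2 * q := by
      have h10 : (1 - q) / Real.log (4 / 3) * ((Real.log (4 / 3) - 3 * q) / 4) =
          (1 - q) * (1 - 3 * q * (1 / Real.log (4 / 3))) / 4 := by
        field_simp
      have h11 : 1 / Real.log (4 / 3) ≤ 4 := by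
        rw [div_le_iff₀ h43']
        linarith
      have h12 : 0 ≤ 1 / Real.log (4 / 3) := by positivity
      rw [h10]
      set t := 1 / Real.log (4 / 3) with ht
      have h13 : (1 - q) * (1 - 3 * q * t) = 1 - q - 3 * q * t + 3 * (q * q) * t := by ring
      have h15 : q * t ≤ q * 4 := mul_le_mul_of_nonneg_left h11 hq0.le
      have h16 : 0 ≤ 3 * (q * q) * t := by positivity
      rw [h13]
      linarith
    rw [h2, le_div_iff₀ (by linarith : (0 : ℝ) < 1 + q)]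
    have h19 : (1 - d) / 4 * (1 + q) ≤ (1 - 21 * q) / 4 := by nlinarith
    linarith
  intro X hX
  have hXpos : 0 < X := lt_of_lt_of_le one_pos ((le_max_right _ _).trans hX)
  have hXr : (0 : ℝ) < X := Nat.cast_pos.2 hXpos
  have hXX : X0 ≤ (X : ℝ) := hX1.trans (Nat.cast_le.2 ((le_max_left _ _).trans hX))
  obtain ⟨K, r, hK, hroot⟩ := hX0 X hXX K0
  have hZi : (0 : ℤ) < (Z : ℤ) := by exact_mod_cast hZpos
  have hZSi : S * (1 + 1 / q) * Real.exp L ≤ ((Z : ℤ) : ℝ) := by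
    rw [Int.cast_natCast]; exact hZS
  -- the window
  have hwin : ∀ (x : ℤ) (v : List ℕ), (∀ k ∈ v, 1 ≤ k) → MassW_Pc s b e i0 h Z L q X (x, v) →
      (X : ℝ) ≤ (nv s (nd x v) : ℝ) ∧ (nv s (nd x v) : ℝ) < b * X * (1 + q) ^ 2 ∧
        ww v / (nv s x * (1 + q)) ≤ 1 / (nv s (nd x v) : ℝ) := by
    intro x v hv hp
    obtain ⟨⟨_, p2, _⟩, p4, p5, _, p7⟩ := hp
    exact MassW_window hs (x := x) (Z := (Z : ℤ)) (X := X) (d := q) (L := L) hS0 hS hq0 hZi hZSi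
      (by rw [Int.cast_natCast]; exact p2) hXr hv p5 p4 p7
  refine ⟨MassW_PP s b e i0 h l K r Z L q X, ?_, ?_⟩
  · intro p hp
    unfold MassW_PP at hp
    obtain ⟨x, v⟩ := p
    rw [Finset.mem_filter, Finset.mem_product, Finset.mem_biUnion] at hp
    obtain ⟨⟨_, j, _, hj⟩, hpc⟩ := hp
    obtain ⟨hlen, hlet⟩ := mem_lw.1 hj
    simp only at hlen hlet hpc ⊢
    have hv : ∀ k ∈ v, 1 ≤ k := fun k hk => (hlet k hk).1
    have hw := hwin x v hv hpc
    have hx0 := Mass_pp hZpos hpc.1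
    obtain ⟨⟨p1, p2, p3⟩, p4, p5, p6, p7⟩ := hpc
    simp only at p1 p2 p3 p4 p5 p6 p7
    have hlv : l ≤ v.length := by omega
    refine ⟨⟨?_, p1, ?_, ?_, hv, p5, ?_⟩, hw.1, ?_⟩
    · exact_mod_cast hx0
    · exact_mod_cast p3
    · intro hv0
      rw [hv0] at hlv
      simp at hlv
      omega
    · exact fp_nodes hs (x := x) (Z := (Z : ℤ)) (L := L) he he1 hS0 hS hq0 hh1 hh0 hhe hZi hZSi
        (by rw [Int.cast_natCast]; exact p2) hv p5 p4 (hhl.trans hlv) (by rw [Int.cast_natCast]; exact p6)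
    · refine lt_of_lt_of_le hw.2.1 ?_
      have : (0 : ℝ) ≤ b * X := by positivity
      exact mul_le_mul_of_nonneg_left hqd' this
  · intro x hx
    dsimp only
    have hnn : 0 ≤ ∑ p ∈ (MassW_PP s b e i0 h l K r Z L q X).filter (fun p => p.1 = x),
        1 / (nv s (nd p.1 p.2) : ℝ) := by
      refine Finset.sum_nonneg fun p hp => ?_
      have hp1 := (Finset.mem_filter.1 hp).1
      unfold MassW_PP at hp1
      obtain ⟨y, v⟩ := p
      rw [Finset.mem_filter, Finset.mem_product, Finset.mem_biUnion] at hp1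
      obtain ⟨⟨_, j, _, hj⟩, hpc⟩ := hp1
      have h1 := (hwin y v (fun k hk => ((mem_lw.1 hj).2 k hk).1) hpc).1
      have h2 : (0 : ℝ) < (nv s (nd y v) : ℝ) := hXr.trans_le h1
      positivity
    by_cases hrt : Mass_Rt s Z L x
    · rw [if_pos hrt]
      rcases le_total (w x) 0 with hwx | hwx
      · rw [max_eq_left hwx, zero_mul]
        exact hnn
      · rw [max_eq_right hwx]
        have hxp := Mass_pp hZpos hrt
        refine le_trans ?_ (MassW_sum hx hrt (fun x v hv hp => (hwin x v hv hp).2.2))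
        have h1 := hroot x (Mass_Hc s Z q x) (by exact_mod_cast hxp) hrt.2.2.le
        rw [← hm] at h1
        have hx0 : (0 : ℝ) < 1 / (nv s x : ℝ) := by positivity
        have h2 := mul_le_mul_of_nonneg_left h1 hx0.le
        rw [hw, div_mul_eq_mul_div]
        refine div_le_div_of_nonneg_right ?_ (by linarith)
        refine le_trans ?_ h2
        have h3 := hmono K x hK
        have h4 : 0 ≤ (1 - q) / Real.log (4 / 3) * Real.log b * (1 / (nv s x : ℝ)) := by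
          have : 0 ≤ (1 - q) / Real.log (4 / 3) := div_nonneg (by linarith) h43'.le
          positivity
        have h5 := mul_le_mul_of_nonneg_left h3 h4
        have e1 : ((1 - q) / Real.log (4 / 3) * (1 / (nv s x : ℝ) * m K0 x) -
            q * Real.exp (-L) * (1 / (nv s x : ℝ))) * Real.log b =
            (1 - q) / Real.log (4 / 3) * Real.log b * (1 / (nv s x : ℝ)) * m K0 x -
              1 / (nv s x : ℝ) * (q * Real.exp (-L) * Real.log b) := by ring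
        have e2 : 1 / (nv s x : ℝ) * ((1 - q) * (Real.log b / Real.log (4 / 3)) * m K x -
            q * Real.exp (-L) * Real.log b) =
            (1 - q) / Real.log (4 / 3) * Real.log b * (1 / (nv s x : ℝ)) * m K x -
              1 / (nv s x : ℝ) * (q * Real.exp (-L) * Real.log b) := by ring
        rw [e1, e2]
        linarith
    · rw [if_neg hrt, zero_mul]
      exact hnn

open Classical in
theorem massW {s : ℤ} (hs : s = 1 ∨ s = -1) {d q : ℝ} (hd : 0 < d) (hq : 1 < q) (hq2 : q ≤ 2) (Z1 : ℤ) :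
    ∃ (Z : ℤ) (c : ℤ → ℝ) (X0 : ℕ), Z1 ≤ Z ∧ (∀ x, 0 ≤ c x) ∧ (∀ x, c x ≠ 0 → 0 < nv s x ∧ nv s x < Z) ∧
      (1 - d) / 4 ≤ ∑ x ∈ Ico (-Z) Z, c x ∧
      ∀ X : ℕ, X0 ≤ X → ∃ P : Finset (ℤ × List ℕ),
        (∀ p ∈ P, FP s Z p.1 p.2 ∧ (X : ℝ) ≤ (nv s (nd p.1 p.2) : ℝ) ∧
          (nv s (nd p.1 p.2) : ℝ) < q * X * (1 + d)) ∧
        ∀ x ∈ Ico (-Z) Z, c x * Real.log q ≤
          ∑ p ∈ P.filter (fun p => p.1 = x), 1 / (nv s (nd p.1 p.2) : ℝ) :=
  MassW_main hs hq hq2 hd Z1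

end Pool.Agent.helper78.T5
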