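import Pool.Agent.helper24.T2.Defs
import Pool.Agent.helper62.T2.Defs
import Pool.Agent.helper41.Coll.Defs

/-!
# T5: natural densities of invariant sets of the 3x+1 map: definitions

`f` is the map of `helper41` (`f 1 = 1`).  `Inv S`: `n` belongs to `S` iff `f n` does.  `OO`: the nodes (`b ≡ 2` modulo `3`, not
divisible by `4`).  `StW q X l A`: `2 ^ A / 3 ^ l ∈ [X, q X)`.  `evS S K r l A`: expected number of visits of the set `S` of states
(level, sum) at the levels `l, …, l + r` by the letter walk from `(l, A)`, letters `≤ K`.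
-/

namespace Pool.Agent.helper78.T5

open Finset Pool.Agent.helper14.EX1 Pool.Agent.helper41.Coll

/-- Invariant sets. -/
def Inv (S : Set ℕ) : Prop := ∀ n, n ∈ S ↔ f n ∈ S

/-- The nodes. -/
def OO : Set ℕ := {b | b % 3 = 2 ∧ ¬ 4 ∣ b}

open Classical in
/-- The number of elements of `S` in `{1, …, X}`. -/
noncomputable def cnt (S : Set ℕ) (X : ℕ) : ℝ := (((Icc 1 X).filter (fun n => n ∈ S)).card : ℝ)

/-- `S` has the natural density `D`. -/
def HasDens (S : Set ℕ) (D : ℝ) : Prop :=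
  Filter.Tendsto (fun X : ℕ => cnt S X / X) Filter.atTop (nhds D)

open Classical in
/-- The sum of `1 / b` over the `b ∈ S`, `X ≤ b < Y`. -/
noncomputable def mass (S : Set ℕ) (X : ℕ) (Y : ℝ) : ℝ :=
  ∑ b ∈ (Ico X ⌈Y⌉₊).filter (fun b => b ∈ S), 1 / (b : ℝ)

/-- The strip `[X, q X)`. -/
def StW (q X : ℝ) (l A : ℕ) : Prop := X * 3 ^ l ≤ 2 ^ A ∧ (2 : ℝ) ^ A < q * X * 3 ^ l

open Classical in
/-- The expected number of visits. -/
noncomputable def evS (S : ℕ → ℕ → Prop) (K : ℕ) : ℕ → ℕ → ℕ → ℝ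
  | 0, l, A => if S l A then 1 else 0
  | r + 1, l, A => (if S l A then 1 else 0) + ∑ B ∈ Icc 1 K, (1 / 2 : ℝ) ^ B * evS S K r (l + 1) (A + B)

end Pool.Agent.helper78.T5
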