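import Pool.Agent.helper31.T2X.Defs
import Pool.Agent.helper78.T5.Defs
import Pool.Agent.helper62.T2.VisH
import Pool.Agent.helper24.T2.Defs

/-!
# T5-TelW: the root theorem for the narrow strip

`TelW_tel`: telescoping (as `vis_tel`) for an arbitrary set `Q` of states inside the strip `[X, 2 X)`.
-/

namespace Pool.Agent.helper78.T5

open Finset Pool.Agent.helper14.EX1 Pool.Agent.helper49.PDR Pool.Agent.helper82.PD Pool.Agent.helper31.T2X

theorem TelW_nn (Q : ℕ → ℕ → Prop) (K : ℕ) (r : ℕ) : ∀ l A : ℕ, 0 ≤ evS Q K r l A := by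
  classical
  induction r with
  | zero =>
    intro l A
    unfold evS
    split_ifs <;> norm_num
  | succ r ih =>
    intro l A
    unfold evS
    refine add_nonneg ?_ (sum_nonneg fun B _ => mul_nonneg (by positivity) (ih _ _))
    split_ifs <;> norm_num

theorem TelW_le {Q : ℕ → ℕ → Prop} {X : ℝ} (hQ : ∀ n A, Q n A → strip X n A) (K : ℕ) (r : ℕ) :
    ∀ l A : ℕ, evS Q K r l A ≤ vis K X r l A := by
  classical
  have h0 : ∀ l A : ℕ, (if Q l A then (1 : ℝ) else 0) ≤ if strip X l A then 1 else 0 := by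
    intro l A
    by_cases h : Q l A
    · rw [if_pos h, if_pos (hQ l A h)]
    · rw [if_neg h]
      split_ifs <;> norm_num
  induction r with
  | zero =>
    intro l A
    exact h0 l A
  | succ r ih =>
    intro l A
    exact add_le_add (h0 l A) (sum_le_sum fun B _ => mul_le_mul_of_nonneg_left (ih _ _) (by positivity))

open Classical in
theorem TelW_tel {C ρ : ℝ} (hC : 0 ≤ C) (hρ : 0 < ρ) (hρ1 : ρ < 1) (i0 : ℕ) {d : ℝ} (hd : 0 < d) :
    ∃ n0 : ℕ, i0 ≤ n0 ∧ ∀ (R : Rule C ρ) (h0 l : ℕ), n0 ≤ l → 11 * h0 ≤ 10 * l →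
      ∀ (K r : ℕ) (X : ℝ) (x : ℤ) (H : List ℕ → Prop) (Q : ℕ → ℕ → Prop), 0 < X →
      (∀ n A, Q n A → strip X n A) →
      ∑ u ∈ GH R i0 h0 H K l, (if Ala x u then ww u * evS Q K r l u.sum else 0) - d ≤
        ∑ j ∈ range (r + 1), ∑ v ∈ GH R i0 h0 H K (l + j),
          (if Ala x v ∧ Q (l + j) v.sum then ww v else 0) := by
  obtain ⟨D, hD, hstep⟩ := step_low 2 hC hρ hρ1
  obtain ⟨M, hM, hvis⟩ := vis_le
  obtain ⟨E, hE⟩ : ∃ E, E = M * (2 ^ i0 * D) := ⟨_, rfl⟩
  have hE0 : 0 ≤ E := by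
    rw [hE]
    have : 0 ≤ M := by linarith
    positivity
  obtain ⟨n1, hn1⟩ := exists_nat_ge (2 * E / d)
  refine ⟨max (max 100 (2 * i0)) (n1 + 1), ?_, ?_⟩
  · omega
  intro R h0 l hl hh K r X x H Q hX hQ
  have key : ∀ (r l : ℕ), max (max 100 (2 * i0)) (n1 + 1) ≤ l → 11 * h0 ≤ 10 * l →
      ∑ u ∈ GH R i0 h0 H K l, (if Ala x u then ww u * evS Q K r l u.sum else 0) - E * (2 / l) ≤
        ∑ j ∈ range (r + 1), ∑ v ∈ GH R i0 h0 H K (l + j),
          (if Ala x v ∧ Q (l + j) v.sum then ww v else 0) := by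
    intro r
    induction r with
    | zero =>
      intro l hl hh
      have h1 : (0:ℝ) ≤ E * (2 / l) := by positivity
      rw [zero_add, sum_range_one]
      have h2 : ∑ u ∈ GH R i0 h0 H K l, (if Ala x u then ww u * evS Q K 0 l u.sum else 0) =
          ∑ v ∈ GH R i0 h0 H K (l + 0), (if Ala x v ∧ Q (l + 0) v.sum then ww v else 0) := by
        rw [add_zero]
        refine sum_congr rfl fun u _ => ?_
        unfold evS
        by_cases a1 : Ala x u
        · by_cases a2 : Q l u.sum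
          · simp [a1, a2]
          · simp [a1, a2]
        · simp [a1]
      linarith
    | succ r ih =>
      intro l hl hh
      have hl1 : 1 ≤ l := by omega
      have h1 := ih (l + 1) (by omega) (by omega)
      have h2 := Tel_scale (R := R) (i0 := i0) (h0 := h0) (K := K) (l := l) (H := H) (D := D) hM
        (fun h a b y => hstep R i0 h0 K l H h a b y (by omega) (by omega) (by omega))
        (fun A => evS Q K r (l + 1) A) (fun A => TelW_nn Q K r (l + 1) A)
        (fun A => (TelW_le hQ K r (l + 1) A).trans (hvis K X r (l + 1) A hX)) x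
      have h3 : ∑ u ∈ GH R i0 h0 H K l, (if Ala x u then ww u * evS Q K (r + 1) l u.sum else 0) =
          ∑ v ∈ GH R i0 h0 H K (l + 0), (if Ala x v ∧ Q (l + 0) v.sum then ww v else 0) +
          ∑ u ∈ GH R i0 h0 H K l,
            (if Ala x u then ww u * nx K (fun A => evS Q K r (l + 1) A) u.sum else 0) := by
        rw [add_zero, ← sum_add_distrib]
        refine sum_congr rfl fun u _ => ?_
        have e : evS Q K (r + 1) l u.sum = (if Q l u.sum then 1 else 0) +
            nx K (fun A => evS Q K r (l + 1) A) u.sum := rfl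
        rw [e]
        by_cases a1 : Ala x u
        · by_cases a2 : Q l u.sum
          · simp [a1, a2, mul_add]
          · simp [a1, a2]
        · simp [a1]
      have h4 : ∑ j ∈ range (r + 1 + 1), ∑ v ∈ GH R i0 h0 H K (l + j),
            (if Ala x v ∧ Q (l + j) v.sum then ww v else 0) =
          ∑ j ∈ range (r + 1), ∑ v ∈ GH R i0 h0 H K (l + 1 + j),
            (if Ala x v ∧ Q (l + 1 + j) v.sum then ww v else 0) +
          ∑ v ∈ GH R i0 h0 H K (l + 0), (if Ala x v ∧ Q (l + 0) v.sum then ww v else 0) := by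
        rw [sum_range_succ']
        congr 1
        refine sum_congr rfl fun j _ => ?_
        have e : l + (j + 1) = l + 1 + j := by ring
        rw [e]
      have h5 : M * (2 ^ i0 * (D / (l : ℝ) ^ 2)) + E * (2 / ((l + 1 : ℕ) : ℝ)) ≤ E * (2 / l) := by
        have e : M * (2 ^ i0 * (D / (l : ℝ) ^ 2)) = E * (1 / (l : ℝ) ^ 2) := by
          rw [hE]
          ring
        rw [e, ← mul_add]
        refine mul_le_mul_of_nonneg_left ?_ hE0
        push_cast
        exact Tel_inv (by exact_mod_cast hl1)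
      rw [h3, h4]
      linarith
  have h1 := key r l hl hh
  have h2 : E * (2 / l) ≤ d := by
    have hl0 : (0:ℝ) < l := by
      have : 0 < l := by omega
      exact_mod_cast this
    have h3 : 2 * E / d ≤ l := by
      refine hn1.trans ?_
      have : n1 ≤ l := by omega
      exact_mod_cast this
    rw [div_le_iff₀ hd] at h3
    rw [← mul_div_assoc, div_le_iff₀ hl0]
    linarith
  linarith

open Classical in
theorem visitsQ {e : ℝ} (he : 0 < e) (he1 : e ≤ 1 / 100) (i0 : ℕ) {d : ℝ} (hd : 0 < d) :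
    ∃ n0 : ℕ, ∀ (h0 l : ℕ), n0 ≤ l → 11 * h0 ≤ 10 * l →
      ∀ (K r : ℕ) (X : ℝ) (x : ℤ) (H : List ℕ → Prop) (Q : ℕ → ℕ → Prop), 0 < X →
      (∀ n A, Q n A → strip X n A) →
      ∑ u ∈ lw K l, (if Pool.Agent.helper24.T2.Gd e i0 u ∧ Ala x u ∧ H (u.take h0) then ww u * evS Q K r l u.sum else 0) - d ≤
        ∑ j ∈ range (r + 1), ∑ v ∈ lw K (l + j),
          (if Pool.Agent.helper24.T2.Gd e i0 v ∧ Ala x v ∧ H (v.take h0) ∧ Q (l + j) v.sum then ww v else 0) := by
  obtain ⟨C, ρ, hC, hρ, hρ1, R, hR⟩ := exists_rule he he1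
  obtain ⟨n0, -, hn0⟩ := TelW_tel hC hρ hρ1 i0 hd
  refine ⟨n0, fun h0 l hl hh K r X x H Q hX hQ => ?_⟩
  have h := hn0 R h0 l hl hh K r X x H Q hX hQ
  have hG : ∀ w : List ℕ, Good R i0 w ↔ Pool.Agent.helper24.T2.Gd e i0 w := by
    intro w
    unfold Good Pool.Agent.helper24.T2.Gd
    exact forall_congr' fun i => imp_congr_right fun _ => imp_congr_right fun _ => hR _
  refine le_trans (le_of_eq ?_) (h.trans (le_of_eq ?_))
  · congr 1
    unfold GH
    rw [Finset.sum_filter]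
    refine Finset.sum_congr rfl fun u _ => ?_
    by_cases h1 : Pool.Agent.helper24.T2.Gd e i0 u ∧ Ala x u ∧ H (u.take h0)
    · rw [if_pos h1, if_pos ⟨(hG u).2 h1.1, h1.2.2⟩, if_pos h1.2.1]
    · rw [if_neg h1]
      by_cases h2 : Good R i0 u ∧ H (u.take h0)
      · rw [if_pos h2]
        have h3 : ¬ Ala x u := fun h4 => h1 ⟨(hG u).1 h2.1, h4, h2.2⟩
        rw [if_neg h3]
      · rw [if_neg h2]
  · refine Finset.sum_congr rfl fun j _ => ?_
    unfold GH
    rw [Finset.sum_filter]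
    refine Finset.sum_congr rfl fun v _ => ?_
    by_cases h1 : Pool.Agent.helper24.T2.Gd e i0 v ∧ Ala x v ∧ H (v.take h0) ∧ Q (l + j) v.sum
    · have h5 : Q (l + j) v.sum := h1.2.2.2
      rw [if_pos h1, if_pos ⟨(hG v).2 h1.1, h1.2.2.1⟩, if_pos ⟨h1.2.1, h5⟩]
    · rw [if_neg h1]
      by_cases h2 : Good R i0 v ∧ H (v.take h0)
      · rw [if_pos h2]
        have h3 : ¬ (Ala x v ∧ Q (l + j) v.sum) := fun h4 => h1 ⟨(hG v).1 h2.1, h4.1, h2.2, h4.2⟩
        rw [if_neg h3]
      · rw [if_neg h2]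


open Classical in
theorem TelW_ev (b : ℝ) (K : ℕ) (X : ℝ) (n : ℕ) : ∀ l A : ℕ, evS (Stw b X) K n l A = evw b K X n l A := by
  induction n with
  | zero =>
    intro l A
    rfl
  | succ n ih =>
    intro l A
    have h1 : evS (Stw b X) K (n + 1) l A = (if Stw b X l A then 1 else 0) +
      ∑ k ∈ Icc 1 K, (1 / 2 : ℝ) ^ k * evS (Stw b X) K n (l + 1) (A + k) := rfl
    have h2 : evw b K X (n + 1) l A = (if Stw b X l A then 1 else 0) +
      ∑ k ∈ Icc 1 K, (1 / 2 : ℝ) ^ k * evw b K X n (l + 1) (A + k) := rfl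
    rw [h1, h2]
    simp only [ih]

open Classical in
theorem visitsW {e : ℝ} (he : 0 < e) (he1 : e ≤ 1 / 100) (i0 : ℕ) {d : ℝ} (hd : 0 < d) :
    ∃ n0 : ℕ, ∀ h l : ℕ, n0 ≤ l → 11 * h ≤ 10 * l →
      ∀ (q : ℝ) (K r : ℕ) (X : ℝ) (x : ℤ) (H : List ℕ → Prop), q ≤ 2 → 0 < X →
      ∑ u ∈ lw K l, (if Pool.Agent.helper24.T2.Gd e i0 u ∧ Ala x u ∧ H (u.take h) then
          ww u * evw q K X r l u.sum else 0) - d ≤
        ∑ j ∈ range (r + 1), ∑ v ∈ lw K (l + j),
          (if Pool.Agent.helper24.T2.Gd e i0 v ∧ Ala x v ∧ H (v.take h) ∧ Stw q X (l + j) v.sum then ww v else 0) := by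
  obtain ⟨n0, hn0⟩ := visitsQ he he1 i0 hd
  refine ⟨n0, fun h l hl hh q K r X x H hq hX => ?_⟩
  have h0 := hn0 h l hl hh K r X x H (Stw q X) hX fun n A hA => ⟨hA.1, hA.2.trans_le (by
    have h1 : (0 : ℝ) ≤ X * 3 ^ n := by positivity
    have h2 := mul_le_mul_of_nonneg_right hq h1
    linarith)⟩
  simp only [TelW_ev] at h0
  exact h0

end Pool.Agent.helper78.T5
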